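import Pool.Agent.H369R3.UT.Defs

set_option autoImplicit false

open Set Filter Topology Metric MeasureTheory

namespace H936R3.UT

open Pool.Agent.H369R3.UT

theorem kern_nonneg {n : ℕ} (r : ℝ) (w : Cn n) : 0 ≤ kern r w :=
  Real.smoothTransition.nonneg _

theorem kern_zero {n : ℕ} {r : ℝ} (hr : 0 < r) {w : Cn n} (hw : r ≤ ‖w‖) : kern r w = 0 := by
  apply Real.smoothTransition.zero_of_nonpos
  have h1 : r ^ 2 ≤ ‖w‖ ^ 2 := by
    have := norm_nonneg w
    nlinarith
  have h2 : 1 ≤ ‖w‖ ^ 2 / r ^ 2 := (one_le_div (by positivity)).2 h1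
  linarith

theorem kern_cont {n : ℕ} (r : ℝ) : Continuous (kern (n := n) r) := by
  unfold kern
  exact Real.smoothTransition.continuous.comp (by fun_prop)

theorem kern_supp {n : ℕ} {r : ℝ} (hr : 0 < r) : HasCompactSupport (kern (n := n) r) := by
  apply HasCompactSupport.intro (isCompact_closedBall (0 : Cn n) r)
  intro x hx
  apply kern_zero hr
  rw [mem_closedBall, dist_zero_right, not_le] at hx
  exact hx.le

theorem circ_cont {n : ℕ} (z w : Cn n) : Continuous (circ z w) := by
  unfold circ
  fun_prop

theorem taskD2 : TaskD2 := by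
  intro hM n μ _ Ω k u a R hu hΩ z w r hr hsub
  obtain ⟨hmeas, hintv, C, hC0, hC⟩ := hM n μ Ω k u a R hu hΩ
  have hpi := Real.pi_pos
  set v : Cn n → ℝ := (closedBall a R).indicator u with hv
  have hB : ∀ x, ‖v x‖ ≤ max C |k| := by
    intro x
    rw [Real.norm_eq_abs, hv]
    by_cases hx : x ∈ closedBall a R
    · rw [indicator_of_mem hx, abs_le]
      have h1 := hC x hx
      have h2 := hu.2.1 x (hΩ hx)
      have h3 := le_max_left C |k|
      have h4 := le_max_right C |k|
      have h5 := le_abs_self k
      constructor <;> linarith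
    · rw [indicator_of_notMem hx, abs_zero]
      exact hC0.trans (le_max_left _ _)
  have hkint : Integrable (kern (n := n) r) μ :=
    (kern_cont r).integrable_of_hasCompactSupport (kern_supp hr)
  have hK : 0 ≤ (∫ w', kern (n := n) r w' ∂μ)⁻¹ :=
    inv_nonneg.2 (integral_nonneg fun w' => kern_nonneg r w')
  set ν : Measure ℝ := volume.restrict (Ioc 0 (2 * Real.pi)) with hν
  have hfin : IsFiniteMeasure ν := by rw [hν]; infer_instance
  set F : Cn n × ℝ → ℝ := fun p => kern r p.1 * v (circ z w p.2 + p.1) with hFdef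
  have hFm : Measurable F := by
    apply Measurable.mul
    · exact (kern_cont r).measurable.comp measurable_fst
    · apply hmeas.comp
      exact (((circ_cont z w).comp continuous_snd).add continuous_fst).measurable
  have hF : Integrable F (μ.prod ν) := by
    have hg : Integrable (fun p : Cn n × ℝ => max C |k| * kern r p.1) (μ.prod ν) :=
      (hkint.comp_fst ν).const_mul _
    refine hg.mono' hFm.aestronglyMeasurable (Filter.Eventually.of_forall fun p => ?_)
    rw [hFdef]
    simp only
    rw [norm_mul, Real.norm_eq_abs, abs_of_nonneg (kern_nonneg r _), mul_comm]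
    exact mul_le_mul_of_nonneg_right (hB _) (kern_nonneg r _)
  have hL : Integrable (fun w' => kern r w' * v (z + w')) μ := by
    have hg : Integrable (fun w' : Cn n => max C |k| * kern r w') μ := hkint.const_mul _
    refine hg.mono' ?_ (Filter.Eventually.of_forall fun p => ?_)
    · apply Measurable.aestronglyMeasurable
      apply Measurable.mul (kern_cont r).measurable
      exact hmeas.comp (continuous_const.add continuous_id).measurable
    · rw [norm_mul, Real.norm_eq_abs, abs_of_nonneg (kern_nonneg r _), mul_comm]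
      exact mul_le_mul_of_nonneg_right (hB _) (kern_nonneg r _)
  have hpt : ∀ w', kern r w' * v (z + w') ≤ (2 * Real.pi)⁻¹ * ∫ θ, F (w', θ) ∂ν := by
    intro w'
    rcases lt_or_ge ‖w'‖ r with h | h
    · have hmem : ∀ ζ : ℂ, ‖ζ‖ ≤ 1 → z + w' + ζ • w ∈ closedBall a R := by
        intro ζ hζ
        apply hsub ζ hζ
        rw [mem_closedBall, dist_eq_norm]
        have : z + w' + ζ • w - (z + ζ • w) = w' := by abel
        rw [this]
        exact h.le
      have h0 : z + w' ∈ closedBall a R := by
        have := hmem 0 (by simp)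
        simpa using this
      have h1 := hu.2.2 (z + w') w fun ζ hζ => hΩ (hmem ζ hζ)
      rw [intervalIntegral.integral_of_le (by positivity)] at h1
      have h2 : ∫ θ, F (w', θ) ∂ν = kern r w' * ∫ θ, u (circ (z + w') w θ) ∂ν := by
        rw [← integral_const_mul]
        congr 1
        funext θ
        rw [hFdef]
        simp only
        have e1 : circ z w θ + w' = circ (z + w') w θ := by
          unfold circ; abel
        have e2 : circ (z + w') w θ ∈ closedBall a R := by
          unfold circ
          exact hmem _ (by rw [Complex.norm_exp_ofReal_mul_I])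
        rw [e1, hv, indicator_of_mem e2]
      rw [h2, hv, indicator_of_mem h0]
      calc kern r w' * u (z + w')
          ≤ kern r w' * ((2 * Real.pi)⁻¹ * ∫ θ, u (circ (z + w') w θ) ∂ν) :=
            mul_le_mul_of_nonneg_left h1 (kern_nonneg r w')
        _ = _ := by ring
    · rw [kern_zero hr h, zero_mul]
      have h2 : ∫ θ, F (w', θ) ∂ν = 0 := by
        rw [hFdef]
        simp only [kern_zero hr h, zero_mul, integral_zero]
      rw [h2, mul_zero]
  have hmain : ∫ w', kern r w' * v (z + w') ∂μ ≤
      (2 * Real.pi)⁻¹ * ∫ θ, ∫ w', F (w', θ) ∂μ ∂ν := by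
    have h3 := integral_mono hL (hF.integral_prod_left.const_mul (2 * Real.pi)⁻¹) hpt
    rw [integral_const_mul] at h3
    have h4 : ∫ w', ∫ θ, F (w', θ) ∂ν ∂μ = ∫ θ, ∫ w', F (w', θ) ∂μ ∂ν :=
      integral_integral_swap (f := fun w' θ => F (w', θ)) hF
    rw [h4] at h3
    exact h3
  unfold moll
  rw [intervalIntegral.integral_of_le (by positivity), integral_const_mul]
  calc (∫ w', kern (n := n) r w' ∂μ)⁻¹ * ∫ w', kern r w' * v (z + w') ∂μ
      ≤ (∫ w', kern (n := n) r w' ∂μ)⁻¹ * ((2 * Real.pi)⁻¹ * ∫ θ, ∫ w', F (w', θ) ∂μ ∂ν) :=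
        mul_le_mul_of_nonneg_left hmain hK
    _ = _ := by ring

end H936R3.UT
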