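import Pool.Agent.H647R3.GDef

set_option autoImplicit false

open Set Topology

namespace H936R3.FDS

open H647R3.Fac H647R3.GDS H647R3.GDS.TB PiNat

universe u

/-- the projection of `Th X` to `X` -/
def prj (X : Type u) [AddCommGroup X] [Module ℝ X] : Th X →ₗ[ℝ] X :=
  (LinearMap.fst ℝ X (JJ X → ℝ)).comp (Th X).subtype

theorem prj_cont (X : Type u) [NormedAddCommGroup X] [NormedSpace ℝ X] :
    Continuous (prj X) := continuous_fst.comp continuous_subtype_val

open Classical in
theorem prj_open (X : Type u) [NormedAddCommGroup X] [NormedSpace ℝ X] :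
    IsOpenMap (prj X) := by
  rw [isOpenMap_iff_nhds_le]
  intro p s hs
  rw [Filter.mem_map, mem_nhds_subtype] at hs
  obtain ⟨o, ho, hos⟩ := hs
  obtain ⟨u, hu, v, hv, huv⟩ := mem_nhds_prod_iff.1 ho
  obtain ⟨v', hv', hv'o, hpv'⟩ := mem_nhds_iff.1 hv
  obtain ⟨F, t, ht, htv⟩ := isOpen_pi_iff.1 hv'o _ hpv'
  have hsub : u ⊆ s := by
    intro x' hx'
    set q : X × (JJ X → ℝ) := (x', fun j => if j ∈ F then p.1.2 j else j.1 x') with hq
    have hqT : q ∈ Th X := by
      show {j : JJ X | q.2 j ≠ j.1 q.1}.Countable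
      refine (F.countable_toSet).mono fun j hj => ?_
      by_contra hcon
      apply hj
      rw [hq]
      simp only
      rw [if_neg (by simpa using hcon)]
    have hqo : q ∈ o := by
      apply huv
      refine ⟨hx', hv' (htv ?_)⟩
      intro j hj
      have hj' : j ∈ F := by simpa using hj
      rw [hq]
      simp only
      rw [if_pos hj']
      exact (ht j hj').2
    have := hos (show (⟨q, hqT⟩ : Th X) ∈ Subtype.val ⁻¹' o from hqo)
    exact this
  exact Filter.mem_of_superset hu hsub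

/-- canonical lift -/
def lft {X : Type u} [AddCommGroup X] [Module ℝ X] (x : X) : Th X :=
  ⟨(x, fun j => j.1 x), by
    show {j : JJ X | j.1 x ≠ j.1 x}.Countable
    simp⟩

theorem sd_false {T : Set Cant} {x : ET T} {t : Cant} (ht : Peak x t) (hT : t ∈ T)
    {r : ℝ} (hr0 : 0 < r)
    (h : ‖x + r • eJ hT‖ + ‖x - r • eJ hT‖ - 2 * ‖x‖ ≤ 1 / 2 * r) : False := by
  have a : ‖x‖ + r ≤ ‖x + r • eJ hT‖ := by
    apply le_of_forall_pos_le_add
    intro e he
    obtain ⟨n, hn⟩ := ht.2 e he
    have hs := hn (flip t (2 * n)) (flip_mem t (by omega))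
    have hv := val_le (x + r • eJ hT) (flip t (2 * n))
    rw [val_add, val_smul, val_eJ] at hv
    have hj : jumpF t (flip t (2 * n)) = 1 := by
      unfold jumpF
      rw [if_pos]
      exact ⟨flip_ne' _ _, by rw [firstDiff_flip]; exact even_two_mul n⟩
    rw [hj] at hv
    linarith
  have b : ‖x‖ ≤ ‖x - r • eJ hT‖ := by
    apply le_of_forall_pos_le_add
    intro e he
    obtain ⟨n, hn⟩ := ht.2 e he
    have hs := hn t (self_mem_cylinder t n)
    have hv := val_le (x - r • eJ hT) t
    rw [val_sub, val_smul, val_eJ] at hv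
    have hj : jumpF t t = 0 := by
      unfold jumpF
      rw [if_neg]
      simp
    rw [hj] at hv
    linarith
  linarith

theorem ite_even {α : Type*} (A B : ℕ → Set α) (m : ℕ) (y : α)
    (h : y ∈ (if Even (2 * m) then A (2 * m / 2) else B (2 * m / 2))) : y ∈ A m := by
  rw [if_pos (even_two_mul m), show 2 * m / 2 = m by omega] at h
  exact h

theorem ite_odd {α : Type*} (A B : ℕ → Set α) (m : ℕ) (y : α)
    (h : y ∈ (if Even (2 * m + 1) then A ((2 * m + 1) / 2) else B ((2 * m + 1) / 2))) :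
    y ∈ B m := by
  rw [if_neg (by simp), show (2 * m + 1) / 2 = m by omega] at h
  exact h

theorem core {T : Set Cant}
    (hT : ∀ τ : Cant → Cant, Continuous τ → Function.Injective τ → ∃ σ, τ σ ∈ T)
    (x : Cant → ET T) (hxc : Continuous x) (hxB : ∀ σ, x σ ∈ BB T)
    (hzP : ∀ σ m, x σ ∈ PP T m) (hzW : ∀ σ σ', σ ≠ σ' → (x σ, x σ') ∈ WW T) :
    ∃ σ t, t ∈ T ∧ Peak (x σ) t := by
  choose τ hτ using fun σ => exists_peak (hzP σ)
  have hinj : Function.Injective τ := by
    intro σ σ' h
    by_contra hne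
    obtain ⟨h1, h2, p, p', n, hpp, ε, hε, h3, h4⟩ := hzW σ σ' hne
    have a := peak_mem (hxB σ) (hτ σ) hε h3
    have b := peak_mem (hxB σ') (hτ σ') hε h4
    rw [← h] at b
    rw [mem_cylinder_iff] at a b
    apply hpp
    rw [mem_cylinder_iff]
    intro i hi
    rw [← b i hi, a i hi]
  have hcont : Continuous τ := by
    refine continuous_pi fun i => ?_
    rw [continuous_iff_continuousAt]
    intro σ0
    obtain ⟨ε, hε, h⟩ := (hτ σ0).1 (i + 1)
    have hev : ∀ᶠ σ in 𝓝 σ0, ‖x σ - x σ0‖ < ε / 4 := by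
      have := hxc.continuousAt (x := σ0)
      have h2 := Metric.tendsto_nhds.1 this (ε / 4) (by positivity)
      filter_upwards [h2] with σ hσ
      rwa [dist_eq_norm] at hσ
    have heq : ∀ᶠ σ in 𝓝 σ0, τ σ i = τ σ0 i := by
      filter_upwards [hev] with σ hσ
      have hmem : τ σ ∈ cylinder (τ σ0) (i + 1) := by
        refine peak_mem (hxB σ) (hτ σ) (ε := ε / 2) (by positivity) fun s hs => ?_
        have a := abs_le.1 (val_close (x σ) (x σ0) s)
        have b := abs_le.1 (norm_close (x σ) (x σ0))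
        linarith [h s hs, a.1, a.2, b.1, b.2]
      rw [mem_cylinder_iff] at hmem
      exact hmem i (by omega)
    exact (continuousAt_const (y := τ σ0 i)).congr (heq.mono fun σ hσ => hσ.symm)
  obtain ⟨σ, hσ⟩ := hT τ hcont hinj
  exact ⟨σ, τ σ, hσ, hτ σ⟩

theorem taskNW : TaskNW := by
  intro hM T hT hWA
  have hcs : CompleteSpace (ET T) := by
    have : IsClosed ((ET T : Submodule ℝ BF) : Set BF) := Submodule.isClosed_topologicalClosure _
    exact this.completeSpace_coe
  set O : Set (Th (ET T)) := prj (ET T) ⁻¹' BB T with hO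
  have hOo : IsOpen O := BB_open.preimage (prj_cont _)
  have hne : O.Nonempty := ⟨lft (eI T []), Metric.mem_ball_self (by norm_num)⟩
  have hOc : Convex ℝ O := (convex_ball _ _).linear_preimage (prj (ET T))
  have hfc : Continuous (fun p : Th (ET T) => ‖prj (ET T) p‖) := (prj_cont _).norm
  have hfx : ConvexOn ℝ O (fun p : Th (ET T) => ‖prj (ET T) p‖) := by
    have h1 := (convexOn_norm (E := ET T) convex_univ).comp_linearMap (prj (ET T))
    exact h1.subset (fun p _ => mem_univ _) hOc
  obtain ⟨S, hSD, hSG, hSd, hSdiff⟩ := hWA O hne hOo hOc _ hfc.continuousOn hfx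
  obtain ⟨U, hUo, hU⟩ := isGδ_iff_eq_iInter_nat.1 hSG
  have hWo : IsOpenMap (Prod.map (prj (ET T)) (prj (ET T))) := (prj_open _).prodMap (prj_open _)
  obtain ⟨z, hzc, hzB, hzD, hzW⟩ := hM (ET T) O hOo hne
    (fun n => if Even n then U (n / 2) else prj (ET T) ⁻¹' PP T (n / 2))
    (fun n => by
      split_ifs
      · exact hUo _
      · exact (PP_open _).preimage (prj_cont _))
    (fun n => by
      split_ifs
      · refine hSd.trans (closure_mono ?_)
        rw [hU]
        exact iInter_subset _ _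
      · exact (preimage_mono (PP_dense _)).trans
          (prj_open _).preimage_closure_subset_closure_preimage)
    (fun _ => Prod.map (prj (ET T)) (prj (ET T)) ⁻¹' WW T)
    (fun _ => WW_open.preimage ((prj_cont _).prodMap (prj_cont _)))
    (fun _ => by
      refine subset_trans ?_ hWo.preimage_closure_subset_closure_preimage
      rintro ⟨p, q⟩ ⟨hp, hq⟩
      exact WW_dense ⟨hp, hq⟩)
  have hzS : ∀ σ, z σ ∈ S := by
    intro σ
    exact (Set.ext_iff.1 hU (z σ)).2 (mem_iInter.2 fun n =>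
      ite_even U (fun n => prj (ET T) ⁻¹' PP T n) n (z σ) (hzD σ (2 * n)))
  obtain ⟨σ, t, hσ, ht⟩ := core hT (fun σ => prj (ET T) (z σ)) hzc hzB
    (fun σ m => ite_odd U (fun n => prj (ET T) ⁻¹' PP T n) m (z σ) (hzD σ (2 * m + 1)))
    (fun σ σ' hne => hzW σ σ' hne 0)
  have hG := hSdiff _ (hzS σ)
  have hsd := sd_of_diff (gateaux_iff.1 hG)
  obtain ⟨δ, hδ, h⟩ := hsd {lft (eJ hσ)} ⟨lft (eJ hσ), rfl⟩ (1 / 2) (by norm_num)
  obtain ⟨h1, h2, h3⟩ := h (lft (eJ hσ)) rfl (δ / 2) (by positivity) (by linarith)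
  exact sd_false ht hσ (r := δ / 2) (by positivity) h3

end H936R3.FDS
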