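import Pool.Agent.H913R3.MH.Stmts

/-! Task 8 of project H913-MH (condensation of the series). -/

open MeasureTheory Set Filter Topology
open scoped ENNReal

namespace H936R3.MH

open H913R3.MH

lemma supN_le_iff {m : ℕ} (q : Fin m → ℤ) (N : ℕ) :
    supN q ≤ N ↔ ∀ j, |q j| ≤ (N : ℤ) := by
  unfold supN
  rw [Finset.sup_le_iff]
  constructor
  · intro h j
    have := h j (Finset.mem_univ _)
    rw [Int.abs_eq_natAbs]
    exact_mod_cast this
  · intro h j _
    have := h j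
    rw [Int.abs_eq_natAbs] at this
    exact_mod_cast this

lemma one_le_supN {m : ℕ} (q : Fin m → ℤ) (hq : q ≠ 0) : 1 ≤ supN q := by
  by_contra hlt
  have h0 : supN q ≤ 0 := by omega
  rw [supN_le_iff] at h0
  apply hq
  funext j
  have := h0 j
  simpa using this

lemma tsum_block_le (d N : ℕ) (c : ℝ≥0∞) :
    (∑' q : Fin d → ℤ, if supN q ≤ N then c else 0) ≤ ((2 * N + 1 : ℕ) : ℝ≥0∞) ^ d * c := by
  have h1 : (∑' q : Fin d → ℤ, if supN q ≤ N then c else 0)
      = ∑ q ∈ Fintype.piFinset (fun _ : Fin d => Finset.Icc (-(N : ℤ)) N),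
        (if supN q ≤ N then c else 0) := by
    apply tsum_eq_sum
    intro q hq
    rw [if_neg]
    intro hle
    apply hq
    rw [supN_le_iff] at hle
    rw [Fintype.mem_piFinset]
    intro j
    rw [Finset.mem_Icc]
    exact abs_le.mp (hle j)
  rw [h1]
  calc ∑ q ∈ Fintype.piFinset (fun _ : Fin d => Finset.Icc (-(N : ℤ)) N),
        (if supN q ≤ N then c else 0)
      ≤ ∑ q ∈ Fintype.piFinset (fun _ : Fin d => Finset.Icc (-(N : ℤ)) N), c := by
        apply Finset.sum_le_sum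
        intro q _
        split_ifs
        · exact le_rfl
        · exact zero_le
    _ = ((2 * N + 1 : ℕ) : ℝ≥0∞) ^ d * c := by
        rw [Finset.sum_const, nsmul_eq_mul, Fintype.card_piFinset]
        have hc : (Finset.Icc (-(N : ℤ)) N).card = 2 * N + 1 := by
          rw [Int.card_Icc]; omega
        simp [hc]

theorem taskSeries : TaskSeries := by
  intro m R L G hR hL hG0 hGa htop hsum
  -- block constants
  set b : ℕ → ℝ := fun k => (3 * R * L ^ (k + 1) : ℝ) * G (3 * R * L ^ k) with hb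
  have hLpos : 0 < L := by omega
  have hpos : ∀ k, 1 ≤ 3 * R * L ^ k := by
    intro k
    have : 0 < 3 * R * L ^ k := by positivity
    omega
  have hb0 : ∀ k, 0 ≤ b k := by
    intro k
    have := hG0 _ (hpos k)
    simp only [hb]
    positivity
  -- pointwise bound
  have hpt : ∀ q : {q : Fin (m + 1) → ℤ // q ≠ 0},
      ENNReal.ofReal ((supN q.1 : ℝ) * G (supN q.1)) ≤
        (if supN q.1 ≤ 3 * R then ENNReal.ofReal (3 * R * G 1) else 0) +
        ∑' k : ℕ, (if supN q.1 ≤ 3 * R * L ^ (k + 1) then ENNReal.ofReal (b k) else 0) := by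
    intro q
    have h1 : 1 ≤ supN q.1 := one_le_supN q.1 q.2
    by_cases hle : supN q.1 ≤ 3 * R
    · rw [if_pos hle]
      refine le_trans ?_ le_self_add
      apply ENNReal.ofReal_le_ofReal
      have hG1 : G (supN q.1) ≤ G 1 := hGa 1 _ le_rfl h1
      have hG2 : 0 ≤ G (supN q.1) := hG0 _ h1
      have hle' : (supN q.1 : ℝ) ≤ 3 * R := by exact_mod_cast hle
      exact mul_le_mul hle' hG1 hG2 (by positivity)
    · push Not at hle
      rw [if_neg (by omega), zero_add]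
      -- find k
      have hex : ∃ k, supN q.1 < 3 * R * L ^ (k + 1) := by
        refine ⟨supN q.1, ?_⟩
        calc supN q.1 < 2 ^ supN q.1 := Nat.lt_two_pow_self
          _ ≤ L ^ supN q.1 := Nat.pow_le_pow_left hL _
          _ ≤ L ^ (supN q.1 + 1) := Nat.pow_le_pow_right hLpos (by omega)
          _ ≤ 3 * R * L ^ (supN q.1 + 1) := by
            apply Nat.le_mul_of_pos_left
            omega
      classical
      set k := Nat.find hex with hk
      have hk1 : supN q.1 < 3 * R * L ^ (k + 1) := Nat.find_spec hex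
      have hk2 : 3 * R * L ^ k ≤ supN q.1 := by
        rcases Nat.eq_zero_or_pos k with h0 | h0
        · rw [h0, pow_zero, mul_one]; exact hle.le
        · have := Nat.find_min hex (m := k - 1) (by omega)
          push Not at this
          have e : k - 1 + 1 = k := by omega
          rw [e] at this
          exact this
      refine le_trans ?_ (ENNReal.le_tsum k)
      rw [if_pos hk1.le]
      apply ENNReal.ofReal_le_ofReal
      simp only [hb]
      have hG1 : G (supN q.1) ≤ G (3 * R * L ^ k) := hGa _ _ (hpos k) hk2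
      have hG2 : 0 ≤ G (supN q.1) := hG0 _ h1
      have hle' : (supN q.1 : ℝ) ≤ 3 * R * L ^ (k + 1) := by exact_mod_cast hk1.le
      exact mul_le_mul hle' hG1 hG2 (by positivity)
  -- sum over all q
  set F : (Fin (m + 1) → ℤ) → ℝ≥0∞ := fun q =>
      (if supN q ≤ 3 * R then ENNReal.ofReal (3 * R * G 1) else 0) +
        ∑' k : ℕ, (if supN q ≤ 3 * R * L ^ (k + 1) then ENNReal.ofReal (b k) else 0) with hF
  have h2 : (∑' q : {q : Fin (m + 1) → ℤ // q ≠ 0},
      ENNReal.ofReal ((supN q.1 : ℝ) * G (supN q.1))) ≤ ∑' q : Fin (m + 1) → ℤ, F q := by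
    calc _ ≤ ∑' q : {q : Fin (m + 1) → ℤ // q ≠ 0}, F q.1 := ENNReal.tsum_le_tsum hpt
      _ ≤ ∑' q : Fin (m + 1) → ℤ, F q :=
        ENNReal.tsum_comp_le_tsum_of_injective Subtype.val_injective F
  have h3 : (∑' q : Fin (m + 1) → ℤ, F q) ≤
      ((2 * (3 * R) + 1 : ℕ) : ℝ≥0∞) ^ (m + 1) * ENNReal.ofReal (3 * R * G 1) +
      ∑' k : ℕ, ((2 * (3 * R * L ^ (k + 1)) + 1 : ℕ) : ℝ≥0∞) ^ (m + 1) * ENNReal.ofReal (b k) := by
    rw [hF, ENNReal.tsum_add]
    apply add_le_add (tsum_block_le _ _ _)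
    rw [ENNReal.tsum_comm]
    exact ENNReal.tsum_le_tsum fun k => tsum_block_le _ _ _
  -- block sums
  set C : ℝ := (9 * R * L : ℝ) ^ (m + 1) * (3 * R * L) with hC
  have h4 : ∀ k : ℕ, ((2 * (3 * R * L ^ (k + 1)) + 1 : ℕ) : ℝ≥0∞) ^ (m + 1) * ENNReal.ofReal (b k)
      ≤ ENNReal.ofReal (C * (((L : ℝ) ^ k) ^ (m + 2) * G (3 * R * L ^ k))) := by
    intro k
    have e1 : ((2 * (3 * R * L ^ (k + 1)) + 1 : ℕ) : ℝ≥0∞) ^ (m + 1) =
        ENNReal.ofReal (((2 * (3 * R * L ^ (k + 1)) + 1 : ℕ) : ℝ) ^ (m + 1)) := by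
      rw [ENNReal.ofReal_pow (by positivity), ENNReal.ofReal_natCast]
    rw [e1, ← ENNReal.ofReal_mul (by positivity)]
    apply ENNReal.ofReal_le_ofReal
    have hGk := hG0 _ (hpos k)
    have hn : 2 * (3 * R * L ^ (k + 1)) + 1 ≤ 9 * R * L ^ (k + 1) := by
      have := hpos (k + 1)
      have h9 : 9 * R * L ^ (k + 1) = 3 * (3 * R * L ^ (k + 1)) := by ring
      omega
    have hn' : ((2 * (3 * R * L ^ (k + 1)) + 1 : ℕ) : ℝ) ≤ 9 * R * L ^ (k + 1) := by
      exact_mod_cast hn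
    have hpow : ((2 * (3 * R * L ^ (k + 1)) + 1 : ℕ) : ℝ) ^ (m + 1) ≤
        (9 * R * L ^ (k + 1) : ℝ) ^ (m + 1) :=
      pow_le_pow_left₀ (by positivity) hn' _
    calc ((2 * (3 * R * L ^ (k + 1)) + 1 : ℕ) : ℝ) ^ (m + 1) * b k
        ≤ (9 * R * L ^ (k + 1) : ℝ) ^ (m + 1) * b k :=
          mul_le_mul_of_nonneg_right hpow (hb0 k)
      _ = C * (((L : ℝ) ^ k) ^ (m + 2) * G (3 * R * L ^ k)) := by
          simp only [hb, hC]
          have e2 : (9 * R * L ^ (k + 1) : ℝ) = (9 * R * L) * (L : ℝ) ^ k := by ring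
          have e3 : (3 * R * L ^ (k + 1) : ℝ) = (3 * R * L) * (L : ℝ) ^ k := by ring
          rw [e2, e3, mul_pow]
          ring
  have h5 : (∑' k : ℕ, ENNReal.ofReal (C * (((L : ℝ) ^ k) ^ (m + 2) * G (3 * R * L ^ k)))) ≠ ⊤ := by
    apply Summable.tsum_ofReal_ne_top
    exact hsum.mul_left C
  have h6 : ((2 * (3 * R) + 1 : ℕ) : ℝ≥0∞) ^ (m + 1) * ENNReal.ofReal (3 * R * G 1) ≠ ⊤ := by
    apply ENNReal.mul_ne_top
    · exact ENNReal.pow_ne_top (ENNReal.natCast_ne_top _)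
    · exact ENNReal.ofReal_ne_top
  have h7 : (⊤ : ℝ≥0∞) ≤ ((2 * (3 * R) + 1 : ℕ) : ℝ≥0∞) ^ (m + 1) * ENNReal.ofReal (3 * R * G 1) +
      ∑' k : ℕ, ENNReal.ofReal (C * (((L : ℝ) ^ k) ^ (m + 2) * G (3 * R * L ^ k))) := by
    rw [← htop]
    refine h2.trans (h3.trans ?_)
    gcongr with k
    exact h4 k
  exact (ENNReal.add_ne_top.mpr ⟨h6, h5⟩) (top_le_iff.mp h7)

end H936R3.MH
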