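import Mathlib

set_option autoImplicit false

namespace H936R3.RQ

theorem poly_le (b : Polynomial ℕ) : ∃ a : ℕ, ∀ n : ℕ, b.eval n ≤ (n + 2) ^ a := by
  induction b using Polynomial.induction_on' with
  | add p q hp hq =>
    obtain ⟨a, ha⟩ := hp
    obtain ⟨a', ha'⟩ := hq
    refine ⟨max a a' + 1, fun n => ?_⟩
    rw [Polynomial.eval_add, pow_succ]
    have h1 : (n + 2) ^ a ≤ (n + 2) ^ max a a' := Nat.pow_le_pow_right (by omega) (le_max_left _ _)
    have h2 : (n + 2) ^ a' ≤ (n + 2) ^ max a a' := Nat.pow_le_pow_right (by omega) (le_max_right _ _)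
    have h3 : (n + 2) ^ max a a' * 2 ≤ (n + 2) ^ max a a' * (n + 2) :=
      Nat.mul_le_mul_left _ (by omega)
    have := ha n
    have := ha' n
    omega
  | monomial k c =>
    refine ⟨c + k, fun n => ?_⟩
    rw [Polynomial.eval_monomial, pow_add]
    apply Nat.mul_le_mul
    · calc c ≤ 2 ^ c := Nat.lt_two_pow_self.le
        _ ≤ (n + 2) ^ c := Nat.pow_le_pow_left (by omega) _
    · exact Nat.pow_le_pow_left (by omega) _

theorem c4core (b : Polynomial ℕ) (k : ℕ) (C : ℝ) (hC : 0 < C) : ∃ K : ℝ, ∀ n q : ℕ,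
    q ≤ b.eval n →
    (4 * (2 * (q : ℝ) + 1) / (1 / ((n : ℝ) + 2) ^ (k + 2))) ^
      (C * Real.log (2 * (2 * (q : ℝ) + 1))) ≤
    Real.exp (K * Real.log ((n : ℝ) + 2) ^ 2) := by
  obtain ⟨a, ha⟩ := poly_le b
  refine ⟨C * (a + k + 6) * (a + 3), fun n q hq => ?_⟩
  have hN2 : (2 : ℝ) ≤ (n : ℝ) + 2 := by
    have : (0 : ℝ) ≤ n := Nat.cast_nonneg n
    linarith
  have hqN : (q : ℝ) ≤ ((n : ℝ) + 2) ^ a := by exact_mod_cast hq.trans (ha n)
  set N : ℝ := (n : ℝ) + 2 with hN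
  have hN1 : (1 : ℝ) ≤ N := by linarith
  have hN0 : (0 : ℝ) < N := by linarith
  have hL : 0 < Real.log N := Real.log_pos (by linarith)
  have hNa : (1 : ℝ) ≤ N ^ a := one_le_pow₀ hN1
  have hq0 : (0 : ℝ) ≤ q := Nat.cast_nonneg q
  have h4 : (4 : ℝ) ≤ N ^ 2 := by nlinarith
  have hA : 2 * (q : ℝ) + 1 ≤ N ^ (a + 2) := by
    rw [pow_add]
    nlinarith
  have hB : 2 * (2 * (q : ℝ) + 1) ≤ N ^ (a + 3) := by
    have h3 : N ^ (a + 3) = N ^ (a + 2) * N := by rw [← pow_succ]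
    rw [h3]
    have : 0 ≤ N ^ (a + 2) := by positivity
    nlinarith
  have hbase : 4 * (2 * (q : ℝ) + 1) / (1 / N ^ (k + 2)) ≤ N ^ (a + k + 6) := by
    have e : 4 * (2 * (q : ℝ) + 1) / (1 / N ^ (k + 2)) = 4 * (2 * (q : ℝ) + 1) * N ^ (k + 2) := by
      field_simp
    have e2 : N ^ (a + k + 6) = N ^ 2 * N ^ (a + 2) * N ^ (k + 2) := by
      rw [← pow_add, ← pow_add]
      congr 1
      ring
    rw [e, e2]
    apply mul_le_mul_of_nonneg_right _ (by positivity)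
    exact mul_le_mul h4 hA (by positivity) (by positivity)
  have hbase0 : 0 ≤ 4 * (2 * (q : ℝ) + 1) / (1 / N ^ (k + 2)) := by positivity
  have hlog0 : 0 ≤ Real.log (2 * (2 * (q : ℝ) + 1)) := Real.log_nonneg (by linarith)
  have hlog : Real.log (2 * (2 * (q : ℝ) + 1)) ≤ (a + 3) * Real.log N := by
    have h1 := Real.log_le_log (by positivity) hB
    rw [Real.log_pow] at h1
    push_cast at h1
    exact h1
  have hexp0 : 0 ≤ C * Real.log (2 * (2 * (q : ℝ) + 1)) := by positivity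
  refine (Real.rpow_le_rpow hbase0 hbase hexp0).trans ?_
  rw [Real.rpow_def_of_pos (by positivity), Real.log_pow, Real.exp_le_exp]
  push_cast
  have h5 : C * Real.log (2 * (2 * (q : ℝ) + 1)) ≤ C * ((a + 3) * Real.log N) :=
    mul_le_mul_of_nonneg_left hlog hC.le
  calc ((a : ℝ) + k + 6) * Real.log N * (C * Real.log (2 * (2 * (q : ℝ) + 1)))
      ≤ ((a : ℝ) + k + 6) * Real.log N * (C * ((a + 3) * Real.log N)) :=
        mul_le_mul_of_nonneg_left h5 (by positivity)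
    _ = C * (a + k + 6) * (a + 3) * Real.log N ^ 2 := by ring

end H936R3.RQ
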