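import Pool.Agent.H889R3.RQ.Stmts
import Pool.Agent.H936R3.RQC4core

set_option autoImplicit false

namespace H936R3.RQ

theorem c4 : Pool.Agent.H889R3.RQ.St_C4 := c4core

end H936R3.RQ
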